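import Pool.Agent.Helper18.CPC.St

/-! CPC, module SE: the space of points is Hausdorff; separation by cones. -/

set_option autoImplicit false

open Topology Filter Set

namespace Pool.Agent.Helper44.CPC

open Pool.Agent.Helper18.CPC

universe u

variable {R : Type u}

private theorem se_key {p q : Pt R} {n : ℕ} (h : p.τ n ≠ q.τ n) (hp : p.τ n ≠ none) :
    ∃ s : List (R × ℕ), p ∈ D s ∧ q ∉ D s := by
  obtain ⟨c, hc⟩ := Option.ne_none_iff_exists'.1 hp
  have hf : ∀ i < n + 1, p.τ i = some ((p.τ i).getD c) := by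
    intro i hi
    have h1 : p.τ i ≠ none := fun h0 => hp (τ_none h0 (by omega))
    obtain ⟨d, hd⟩ := Option.ne_none_iff_exists'.1 h1
    rw [hd]
    rfl
  refine ⟨pre (fun i => (p.τ i).getD c) (n + 1), mem_D_pre.2 hf, fun hq => ?_⟩
  have h1 := mem_D_pre.1 hq n (by omega)
  rw [← hf n (by omega)] at h1
  exact h h1.symm

private theorem se_sep (p q : Pt R) (h : p.τ ≠ q.τ) :
    ∃ s : List (R × ℕ), (p ∈ D s ∧ q ∉ D s) ∨ (q ∈ D s ∧ p ∉ D s) := by
  obtain ⟨n, hn⟩ := Function.ne_iff.1 h
  by_cases hp : p.τ n = none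
  · obtain ⟨s, hs⟩ := se_key (p := q) (q := p) hn.symm (fun h0 => hn (by rw [hp, h0]))
    exact ⟨s, Or.inr hs⟩
  · obtain ⟨s, hs⟩ := se_key hn hp
    exact ⟨s, Or.inl hs⟩

private theorem se_inj [Data R] : Function.Injective (code (R := R)) := by
  intro p q h
  have h1 : ∀ s, dch s p = dch s q := fun s => congrFun (congrArg Prod.fst h) s
  have h2 : ∀ s, F s p = F s q := fun s => congrFun (congrArg (fun x => x.2.1) h) s
  have h3 : ∀ w, G w p = G w q := fun w => congrFun (congrArg (fun x => x.2.2) h) w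
  have hτ : p.τ = q.τ := by
    by_contra hcon
    obtain ⟨s, ⟨a, b⟩ | ⟨a, b⟩⟩ := se_sep p q hcon
    · have := h1 s
      simp [dch, a, b] at this
    · have := h1 s
      simp [dch, a, b] at this
  rcases cases_pt p with ⟨s, hp⟩ | ⟨w, hp⟩
  · have hq : q = fin s q.r := by
      ext1
      · rw [← hτ, hp]
        rfl
      · rfl
    have := h2 s
    rw [hp, hq, F_fin, F_fin] at this
    rw [hp, hq, this]
  · have hq : q = inf w q.r := by
      ext1
      · rw [← hτ, hp]
        rfl
      · rfl
    have := h3 w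
    rw [hp, hq, G_inf, G_inf] at this
    rw [hp, hq, this]

theorem m_SE : hSE.{u} := by
  intro R _ _ _
  refine ⟨T2Space.of_injective_continuous se_inj continuous_code, fun hR => ⟨?_⟩,
    fun p q h => se_sep p q h⟩
  exact isTotallyDisconnected_of_image continuous_code.continuousOn se_inj
    (isTotallyDisconnected_of_totallyDisconnectedSpace _)

end Pool.Agent.Helper44.CPC
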